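import Pool.Agent.H560.AR.Stm
import Pool.Agent.H249.SI.Fib

/-!
Task FIBC (project AR, helper560): the fibres of `F ↦ s`, `s ^ 2 = (M m F)'`, on a class mod `M` (helper249).
-/

set_option autoImplicit false

namespace Pool.Agent.H249.AR

open Polynomial
open Pool.Agent.H560.AR
open Pool.Agent.H249.SI
open Pool.Agent.H694.Typ (Mn mem_Mn)

variable {K : Type} [Field K] [Fintype K] [CharP K 2]

/-- degree of the root of the derivative, for small factors -/
theorem dq_small {f : K[X]} {d : ℕ} (hf : f.natDegree ≤ 2 * d) (hd : 1 ≤ d) :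
    (dq f).degree < (d : WithBot ℕ) := by
  by_cases h0 : dq f = 0
  · rw [h0, degree_zero]
    exact WithBot.bot_lt_coe _
  · have h1 : (dq f ^ 2).natDegree ≤ f.natDegree - 1 := by
      rw [dq_sq]
      exact natDegree_derivative_le _
    rw [natDegree_pow] at h1
    rw [degree_eq_natDegree h0]
    exact_mod_cast (by omega : (dq f).natDegree < d)

open scoped Classical in
theorem fibC : S_fibC := by
  intro K _ _ _ n u N M m a hN hu1 hn hM hm hi hu
  obtain ⟨N', hN'⟩ : ∃ N' : ℕ, N = M.natDegree + N' := ⟨N - M.natDegree, by omega⟩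
  obtain ⟨k, hk⟩ : ∃ k : ℕ, n = M.natDegree + k := ⟨n - M.natDegree, by omega⟩
  obtain ⟨L, hL⟩ : ∃ L : ℕ, u + L = N' := ⟨N' - u, by omega⟩
  have hkL : u + 2 * L + 1 = k := by omega
  have hkN : u + k = 2 * N' + 1 := by omega
  set a0 : K[X] := a %ₘ M with ha0
  have ha0M : a0.degree < M.degree := degree_modByMonic_lt a hM
  have haa : a0 + M * (a /ₘ M) = a := modByMonic_add_div a M
  set T : K[X] := dq (M * m * a0) with hT
  have hTd : T.degree < (N : WithBot ℕ) := by
    apply dq_small
    · refine natDegree_mul_le.trans ?_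
      have h1 : (M * m).natDegree ≤ M.natDegree + u := by
        rw [← hu]
        exact natDegree_mul_le
      have h2 : a0.natDegree ≤ M.natDegree := natDegree_le_natDegree ha0M.le
      omega
    · omega
  have hMX : (M * X ^ N').Monic := hM.mul (monic_X_pow N')
  have hMXd : (M * X ^ N').natDegree = N := by
    rw [hM.natDegree_mul (monic_X_pow N'), natDegree_X_pow, hN']
  have hlt : T.degree < (M * X ^ N').degree := by
    rw [degree_eq_natDegree hMX.ne_zero, hMXd]
    exact hTd
  refine ⟨T + M * X ^ N', hMX.add_of_right hlt, ?_, ?_, ?_⟩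
  · rw [natDegree_add_eq_right_of_degree_lt hlt, hMXd]
  · rw [CharTwo.add_sq, hT, dq_sq, mul_assoc, derivative_mul]
    have e : derivative M * (m * a0) + M * derivative (m * a0) + (M * X ^ N') ^ 2 -
        derivative M * m * a = M * (derivative (m * a0) + M * (X ^ N') ^ 2 -
          derivative M * m * (a /ₘ M)) := by
      linear_combination (derivative M * m) * haa
    rw [e]
    exact dvd_mul_right _ _
  intro s hs hsd hdiv
  obtain ⟨y, hy⟩ := hdiv
  set z : K[X] := X ^ N' + y with hz
  have hsz : s = T + M * z := by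
    rw [hz, mul_add, ← add_assoc, ← hy]
    ring
  have hTs : T.degree < s.degree := by
    rw [degree_eq_natDegree hs.ne_zero, hsd]
    exact hTd
  have hMz : (M * z).Monic := by
    have h1 : M * z = s - T := by
      rw [hsz]
      ring
    rw [h1]
    exact hs.sub_of_left hTs
  have hMzd : (M * z).natDegree = N := by
    have h1 : M * z = s - T := by
      rw [hsz]
      ring
    rw [h1, natDegree_eq_of_degree_eq (degree_sub_eq_left_of_degree_lt hTs), hsd]
  have hzm : z.Monic := hM.of_mul_monic_left hMz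
  have hzd : z.natDegree = N' := by
    rw [hM.natDegree_mul hzm] at hMzd
    omega
  have hmX : (m * X ^ k).Monic := hm.mul (monic_X_pow k)
  have hmXd : (m * X ^ k).natDegree = 2 * N' + 1 := by
    rw [hm.natDegree_mul (monic_X_pow k), natDegree_X_pow, hu, hkN]
  obtain ⟨hD, hDd⟩ := dq_monic hmX hmXd
  set D : K[X] := dq (m * X ^ k) with hDdef
  have hw : (z - D).degree < ((u + L : ℕ) : WithBot ℕ) := by
    have h1 : (z - D).degree < z.degree := by
      apply degree_sub_lt_left
      · rw [degree_eq_natDegree hzm.ne_zero, degree_eq_natDegree hD.ne_zero, hzd, hDd]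
      · exact hzm.ne_zero
      · rw [hzm.leadingCoeff, hD.leadingCoeff]
    rw [hL, ← hzd, ← degree_eq_natDegree hzm.ne_zero]
    exact h1
  obtain ⟨r, hr, hrw⟩ := surj hm hi hu hu1 _ hw
  have hrk : r.degree < (X ^ k : K[X]).degree := by
    rw [degree_X_pow]
    exact lt_of_lt_of_le hr (by exact_mod_cast (by omega : u + 2 * L ≤ k))
  set g : K[X] := X ^ k + r with hg
  have hgm : g.Monic := (monic_X_pow k).add_of_left hrk
  have hgd : g.natDegree = k := by
    rw [hg, natDegree_add_eq_left_of_degree_lt hrk, natDegree_X_pow]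
  have hmg : derivative (m * g) = z ^ 2 := by
    rw [hg, mul_add, derivative_add, ← dq_sq, ← dq_sq, hrw, ← CharTwo.add_sq, ← hDdef,
      add_sub_cancel]
  have hMg : (M * g).Monic := hM.mul hgm
  have hMgd : (M * g).natDegree = n := by
    rw [hM.natDegree_mul hgm, hgd, hk]
  have hlt2 : a0.degree < (M * g).degree := by
    refine lt_of_lt_of_le ha0M ?_
    rw [degree_eq_natDegree hM.ne_zero, degree_eq_natDegree hMg.ne_zero, hMgd]
    exact_mod_cast (by omega : M.natDegree ≤ n)
  refine ⟨a0 + M * g, ?_, ?_⟩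
  · unfold Cl
    rw [Finset.mem_filter, mem_Mn]
    refine ⟨⟨hMg.add_of_right hlt2, ?_⟩, ?_⟩
    · rw [natDegree_add_eq_right_of_degree_lt hlt2, hMgd]
    · refine ⟨g - a /ₘ M, ?_⟩
      linear_combination haa
  · have e : M * m * (a0 + M * g) = M * m * a0 + M ^ 2 * (m * g) := by ring
    rw [e, derivative_add, derivative_mul (f := M ^ 2), deriv_sq, zero_mul, zero_add, hmg,
      ← dq_sq, ← hT, hsz, CharTwo.add_sq T, mul_pow]

end Pool.Agent.H249.AR
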